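import Pool.Agent.W841.PK.Stm2

/-! The exact identity for the switching statistics. -/

set_option autoImplicit false

namespace Pool.Agent.W397.PK

open Finset W841.PK
open scoped Classical symmDiff

noncomputable section

variable {n : ℕ} (S : Finset (Fin n)) (ρ : Rule n) (t : ℕ) (G : SimpleGraph (Fin n))

theorem AB_eq (w2 : Fin n) : Aw S ρ t G w2 ∪ Bw S ρ t G w2 =
    (((RR S ρ t G).erase (ww S ρ t G)).erase w2).filter (fun a =>
      (G.Adj a (ww S ρ t G) ∧ ¬ G.Adj a w2) ∨ (G.Adj a w2 ∧ ¬ G.Adj a (ww S ρ t G))) := by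
  ext a
  simp only [Aw, Bw, mem_union, mem_filter, mem_erase]
  tauto

theorem Dd_eq (g : Fin n → ℝ) (w2 : Fin n) : Dd S ρ t G g w2 =
    ∑ a ∈ ((RR S ρ t G).erase (ww S ρ t G)).erase w2,
      (g a * (ee G a (ww S ρ t G) - ee G a w2) / 2 - qh S ρ t G w2 / 2 * g a
        + qh S ρ t G w2 / 2 * (g a * ee G a (ww S ρ t G) * ee G a w2)) := by
  unfold Dd
  rw [AB_eq, sum_filter]
  refine sum_congr rfl fun a ha => ?_
  rw [mem_erase, mem_erase] at ha
  obtain ⟨h2, h1, -⟩ := ha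
  unfold ee
  rw [if_neg h1, if_neg h2]
  by_cases e1 : G.Adj a (ww S ρ t G) <;> by_cases e2 : G.Adj a w2 <;> simp [e1, e2] <;> ring

theorem sum_good (g : Fin n → ℝ) : ∑ w2 ∈ good2 S ρ t G, Dd S ρ t G g w2 =
    (∑ w2 ∈ (NN S ρ t G).erase (ww S ρ t G),
      ∑ a ∈ ((RR S ρ t G).erase (ww S ρ t G)).erase w2,
        g a * (ee G a (ww S ρ t G) - ee G a w2) / 2)
    - T4g S ρ t G g - T2g S ρ t G g + T3g S ρ t G g := by
  have h1 : ∑ w2 ∈ (NN S ρ t G).erase (ww S ρ t G),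
      ∑ a ∈ ((RR S ρ t G).erase (ww S ρ t G)).erase w2,
        g a * (ee G a (ww S ρ t G) - ee G a w2) / 2 =
      ∑ w2 ∈ good2 S ρ t G, ∑ a ∈ ((RR S ρ t G).erase (ww S ρ t G)).erase w2,
        g a * (ee G a (ww S ρ t G) - ee G a w2) / 2 + T4g S ρ t G g := by
    unfold good2 T4g bad2
    rw [sum_filter_add_sum_filter_not]
  rw [h1]
  unfold T2g T3g
  rw [add_sub_cancel_right, ← sum_sub_distrib, ← sum_add_distrib]
  refine sum_congr rfl fun w2 _ => ?_
  rw [Dd_eq, sum_add_distrib, sum_sub_distrib, ← mul_sum, ← mul_sum]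

theorem T1_eq (g : Fin n → ℝ) (hw : ww S ρ t G ∈ NN S ρ t G) :
    ∑ w2 ∈ (NN S ρ t G).erase (ww S ρ t G),
      ∑ a ∈ ((RR S ρ t G).erase (ww S ρ t G)).erase w2,
        g a * (ee G a (ww S ρ t G) - ee G a w2) / 2 =
    (∑ a ∈ (RR S ρ t G).erase (ww S ρ t G),
      g a * ((rr S ρ t G : ℝ) * ee G a (ww S ρ t G) - Xn S ρ t G a)) / 2
    - (∑ a ∈ (NN S ρ t G).erase (ww S ρ t G), g a * ee G a (ww S ρ t G)) / 2 := by
  set w := ww S ρ t G with hwd
  have h1 : ∀ w2 : Fin n, ∑ a ∈ ((RR S ρ t G).erase w).erase w2,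
      g a * (ee G a w - ee G a w2) / 2 =
      ∑ a ∈ (RR S ρ t G).erase w, (if a = w2 then 0 else g a * (ee G a w - ee G a w2) / 2) := by
    intro w2
    have : ((RR S ρ t G).erase w).erase w2 = ((RR S ρ t G).erase w).filter (fun a => ¬ a = w2) := by
      ext a; simp only [mem_erase, mem_filter]; tauto
    rw [this, sum_filter]
    refine sum_congr rfl fun a _ => ?_
    by_cases h : a = w2 <;> simp [h]
  rw [sum_congr rfl fun w2 _ => h1 w2, sum_comm]
  have h2 : ∀ a ∈ (RR S ρ t G).erase w, ∑ w2 ∈ (NN S ρ t G).erase w,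
      (if a = w2 then 0 else g a * (ee G a w - ee G a w2) / 2) =
      g a * ((rr S ρ t G : ℝ) * ee G a w - Xn S ρ t G a) / 2
        - (if a ∈ (NN S ρ t G).erase w then g a * ee G a w / 2 else 0) := by
    intro a _
    have h3 : ∀ w2 ∈ (NN S ρ t G).erase w,
        (if a = w2 then 0 else g a * (ee G a w - ee G a w2) / 2) =
        g a * ee G a w / 2 - g a / 2 * ee G a w2 - (if a = w2 then g a * ee G a w / 2 else 0) := by
      intro w2 _
      by_cases h : a = w2
      · subst h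
        simp [ee_self]
      · simp only [h, if_false]; ring
    rw [sum_congr rfl h3, sum_sub_distrib, sum_sub_distrib, sum_const, ← mul_sum]
    have h4 : ∑ w2 ∈ (NN S ρ t G).erase w, ee G a w2 = Xn S ρ t G a - ee G a w := by
      unfold Xn
      rw [← add_sum_erase _ _ hw]; ring
    have h5 : (((NN S ρ t G).erase w).card : ℝ) = (rr S ρ t G : ℝ) - 1 := by
      have h6 : ((NN S ρ t G).erase w).card + 1 = (NN S ρ t G).card := card_erase_add_one hw
      unfold rr
      rw [← h6]; push_cast; ring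
    rw [h4, nsmul_eq_mul, h5]
    have h6 : ∑ w2 ∈ (NN S ρ t G).erase w, (if a = w2 then g a * ee G a w / 2 else 0) =
        if a ∈ (NN S ρ t G).erase w then g a * ee G a w / 2 else 0 := by
      rw [sum_ite_eq]
    rw [h6]
    ring
  rw [sum_congr rfl h2, sum_sub_distrib, ← sum_div]
  congr 1
  rw [← sum_filter, ← sum_div]
  congr 1
  refine sum_congr ?_ fun _ _ => rfl
  ext a
  simp only [mem_filter, mem_erase]
  constructor
  · rintro ⟨_, h⟩; exact h
  · intro h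
    exact ⟨⟨h.1, NN_sub S ρ t G h.2⟩, h⟩

theorem dyid : S_DYid := by
  intro n S ρ t G g hNP hr
  have hw : ww S ρ t G ∈ NN S ρ t G := by
    unfold NN
    exact mem_sdiff.2 ⟨hNP.2, hNP.1⟩
  rw [sum_good, T1_eq S ρ t G g hw]
  have hr0 : (rr S ρ t G : ℝ) ≠ 0 := by
    have : (0 : ℝ) < rr S ρ t G := by exact_mod_cast hr
    exact this.ne'
  have hY : (rr S ρ t G : ℝ) / 2 * Yv S ρ t G g =
      (∑ a ∈ (RR S ρ t G).erase (ww S ρ t G),
        g a * ((rr S ρ t G : ℝ) * ee G a (ww S ρ t G) - Xn S ρ t G a)) / 2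
      - (∑ a ∈ (RR S ρ t G).erase (ww S ρ t G), g a * (Xs S ρ t G a - Xn S ρ t G a)) / 2
      - (Xt S ρ t G (ww S ρ t G) - Xb S ρ t G) / 2 *
          ∑ a ∈ (RR S ρ t G).erase (ww S ρ t G), g a := by
    unfold Yv
    rw [mul_sum, mul_sum, sum_div, sum_div, ← sum_sub_distrib, ← sum_sub_distrib]
    refine sum_congr rfl fun a _ => ?_
    unfold mu
    field_simp
    ring
  rw [hY]
  ring

end

end Pool.Agent.W397.PK
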