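import Pool.Agent.W841.PK.Stm2

/-! The main term of the switching statistics. -/

set_option autoImplicit false

namespace Pool.Agent.W397.PK

open Finset W841.PK
open scoped Classical symmDiff

noncomputable section

theorem one_le_log {n : ℕ} (hn : 3 ≤ n) : 1 ≤ Real.log n := by
  have h0 : (0 : ℝ) < n := by
    have : 0 < n := by omega
    exact_mod_cast this
  rw [Real.le_log_iff_exp_le h0]
  have h1 := Real.exp_one_lt_d9
  have h2 : (3 : ℝ) ≤ n := by exact_mod_cast hn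
  linarith

theorem log_sq_le {n : ℕ} (hn : 3 ≤ n) : Real.log n ^ 2 ≤ 21 * (n : ℝ) ^ ((7 : ℝ) / 16) := by
  have h0 : (0 : ℝ) ≤ n := Nat.cast_nonneg n
  have h1 : Real.log n ≤ (n : ℝ) ^ ((7 : ℝ) / 32) / (7 / 32) :=
    Real.log_le_rpow_div h0 (by norm_num)
  have h2 := one_le_log hn
  have h3 : Real.log n ^ 2 ≤ ((n : ℝ) ^ ((7 : ℝ) / 32) / (7 / 32)) ^ 2 :=
    pow_le_pow_left₀ (by linarith) h1 2
  have h4 : ((n : ℝ) ^ ((7 : ℝ) / 32)) ^ 2 = (n : ℝ) ^ ((7 : ℝ) / 16) := by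
    rw [← Real.rpow_natCast, ← Real.rpow_mul h0]
    norm_num
  rw [div_pow, h4] at h3
  have h5 : 0 ≤ (n : ℝ) ^ ((7 : ℝ) / 16) := Real.rpow_nonneg h0 _
  have h6 : (n : ℝ) ^ ((7 : ℝ) / 16) / (7 / 32) ^ 2 = (1024 / 49) * (n : ℝ) ^ ((7 : ℝ) / 16) := by
    ring
  rw [h6] at h3
  nlinarith

variable {n : ℕ} (S : Finset (Fin n)) (ρ : Rule n) (t : ℕ) (G : SimpleGraph (Fin n))

theorem abs_Xt_le (a : Fin n) : |Xt S ρ t G a| ≤ n := by
  unfold Xt
  refine (abs_sum_le_sum_abs _ _).trans ?_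
  refine (sum_le_sum fun b _ => abs_ee_le G a b).trans ?_
  rw [sum_const, nsmul_eq_mul, mul_one]
  have : (RR S ρ t G).card ≤ n := by
    have := card_le_univ (RR S ρ t G)
    rwa [Fintype.card_fin] at this
  exact_mod_cast this

/-- The total weight. -/
theorem abs_sum_g_le (hS : S.card = Nat.sqrt n) {b : Bool} {γ : ℝ} {g : Fin n → ℝ} (hγ : 0 ≤ γ)
    (hg : ∀ a, |g a| ≤ γ) (hg0 : ∀ a, (if b then a ∉ S else a ∈ S) → g a = 0)
    (A : Finset (Fin n)) : ∑ a ∈ A, |g a| ≤ γ * uu b n := by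
  cases b with
  | true =>
    have h1 : ∑ a ∈ A, |g a| ≤ ∑ a ∈ S, |g a| := by
      rw [← sum_filter_add_sum_filter_not A (fun a => a ∈ S)]
      have h2 : ∑ a ∈ A.filter (fun a => ¬ a ∈ S), |g a| = 0 := by
        refine sum_eq_zero fun a ha => ?_
        rw [hg0 a (by simpa using (mem_filter.1 ha).2), abs_zero]
      rw [h2, add_zero]
      exact sum_le_sum_of_subset_of_nonneg (fun a ha => (mem_filter.1 ha).2)
        (fun a _ _ => abs_nonneg _)
    refine h1.trans ((sum_le_sum fun a _ => hg a).trans ?_)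
    rw [sum_const, nsmul_eq_mul, mul_comm, hS]
    refine mul_le_mul_of_nonneg_left ?_ hγ
    simp only [uu, if_true]
    exact Real.nat_sqrt_le_real_sqrt
  | false =>
    refine (sum_le_sum fun a _ => hg a).trans ?_
    rw [sum_const, nsmul_eq_mul, mul_comm]
    refine mul_le_mul_of_nonneg_left ?_ hγ
    have : A.card ≤ n := by
      have := card_le_univ A
      rwa [Fintype.card_fin] at this
    simpa [uu] using (by exact_mod_cast this : (A.card : ℝ) ≤ n)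

theorem sum_X_sub (hw : ww S ρ t G ∈ NN S ρ t G) (hr : (rr S ρ t G : ℝ) ≠ 0) :
    ∑ w2 ∈ (NN S ρ t G).erase (ww S ρ t G),
      (Xt S ρ t G (ww S ρ t G) - Xt S ρ t G w2) / (rr S ρ t G : ℝ) =
    Xt S ρ t G (ww S ρ t G) - Xb S ρ t G := by
  have h1 : ∑ w2 ∈ (NN S ρ t G).erase (ww S ρ t G), Xt S ρ t G w2 =
      (rr S ρ t G : ℝ) * Xb S ρ t G - Xt S ρ t G (ww S ρ t G) := by
    unfold Xb
    rw [← add_sum_erase _ _ hw]
    field_simp
    ring
  have h5 : (((NN S ρ t G).erase (ww S ρ t G)).card : ℝ) = (rr S ρ t G : ℝ) - 1 := by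
    have h6 : ((NN S ρ t G).erase (ww S ρ t G)).card + 1 = (NN S ρ t G).card :=
      card_erase_add_one hw
    unfold rr
    rw [← h6]; push_cast; ring
  rw [← sum_div, sum_sub_distrib, h1, sum_const, nsmul_eq_mul, h5]
  field_simp
  ring

/-- the estimate of one term -/
theorem term_le {X X2 m q r A D : ℝ} (hr : 0 < r) (hmq : 0 < m - q) (hD : 0 < D)
    (hDm : D ≤ (m - q) * r) (hA : |r - m| ≤ A) :
    |(X - X2) / (m - q) - (X - X2) / r| ≤ (|X| + |X2|) * (A + |q|) / D := by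
  have h1 : (X - X2) / (m - q) - (X - X2) / r = (X - X2) * (r - m + q) / ((m - q) * r) := by
    field_simp
    ring
  have hmr : 0 < (m - q) * r := mul_pos hmq hr
  rw [h1, abs_div, abs_mul, abs_of_pos hmr]
  have h2 : |X - X2| ≤ |X| + |X2| := abs_sub _ _
  have h3 : |r - m + q| ≤ A + |q| := (abs_add_le _ _).trans (by linarith)
  have h4 : 0 ≤ A + |q| := (abs_nonneg _).trans h3
  calc |X - X2| * |r - m + q| / ((m - q) * r) ≤ (|X| + |X2|) * (A + |q|) / ((m - q) * r) := by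
        apply div_le_div_of_nonneg_right _ hmr.le
        exact mul_le_mul h2 h3 (abs_nonneg _) (by positivity)
    _ ≤ (|X| + |X2|) * (A + |q|) / D := by
        apply div_le_div_of_nonneg_left _ hD hDm
        positivity

/-- the sum over all second vertices -/
theorem sum_le {ι : Type} (T : Finset ι) (X2 q : ι → ℝ) {X K L σ : ℝ} (hK : 0 ≤ K)
    (hσ : 1 ≤ σ) (hL : 1 ≤ L) (hT : (T.card : ℝ) ≤ σ ^ 2)
    (hq : ∑ i ∈ T, |q i| ≤ K * σ ^ 2 * σ * √L) (hq2 : ∑ i ∈ T, q i ^ 2 ≤ K * (σ ^ 2) ^ 2 * L ^ 2)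
    (hX : ∑ i ∈ T, |X2 i| ≤ K * σ ^ 2 * σ * √L)
    (hX2 : ∑ i ∈ T, X2 i ^ 2 ≤ K * (σ ^ 2) ^ 2 * L ^ 2) :
    ∑ i ∈ T, (|X| + |X2 i|) * (3 * σ + |q i|) ≤ (3 + 5 * K) * L ^ 2 * σ ^ 4 * (1 + |X| / σ) := by
  have hσ0 : 0 < σ := by linarith
  have hsL : √L ≤ L ^ 2 := by
    have h1 : √L ≤ L := by
      rw [Real.sqrt_le_left (by linarith)]
      nlinarith
    nlinarith
  have hs0 : 0 ≤ √L := Real.sqrt_nonneg _
  have h1 : ∀ i ∈ T, (|X| + |X2 i|) * (3 * σ + |q i|) ≤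
      |X| * (3 * σ) + |X| * |q i| + 3 * σ * |X2 i| + (X2 i ^ 2 + q i ^ 2) / 2 := by
    intro i _
    have h2 : |X2 i| * |q i| ≤ (X2 i ^ 2 + q i ^ 2) / 2 := by
      have := sq_nonneg (|X2 i| - |q i|)
      rw [sub_sq, sq_abs, sq_abs] at this
      linarith
    linarith [h2, (by ring : (|X| + |X2 i|) * (3 * σ + |q i|) =
      |X| * (3 * σ) + |X| * |q i| + 3 * σ * |X2 i| + |X2 i| * |q i|)]
  refine (sum_le_sum h1).trans ?_
  rw [sum_add_distrib, sum_add_distrib, sum_add_distrib, sum_const, nsmul_eq_mul, ← mul_sum,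
    ← mul_sum, ← sum_div, sum_add_distrib]
  set x : ℝ := |X| / σ with hx
  have hx0 : 0 ≤ x := div_nonneg (abs_nonneg _) hσ0.le
  have hXx : |X| = x * σ := by rw [hx]; field_simp
  rw [hXx]
  have e1 : (T.card : ℝ) * (x * σ * (3 * σ)) ≤ 3 * L ^ 2 * σ ^ 4 * x := by
    have a1 : (T.card : ℝ) * (x * σ * (3 * σ)) ≤ σ ^ 2 * (x * σ * (3 * σ)) :=
      mul_le_mul_of_nonneg_right hT (by positivity)
    have a2 : σ ^ 2 * (x * σ * (3 * σ)) = 3 * σ ^ 4 * x * 1 := by ring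
    have a3 : 3 * σ ^ 4 * x * 1 ≤ 3 * σ ^ 4 * x * L ^ 2 := by
      apply mul_le_mul_of_nonneg_left _ (by positivity)
      nlinarith
    linarith [(by ring : 3 * L ^ 2 * σ ^ 4 * x = 3 * σ ^ 4 * x * L ^ 2)]
  have e2 : x * σ * ∑ i ∈ T, |q i| ≤ K * L ^ 2 * σ ^ 4 * x := by
    calc x * σ * ∑ i ∈ T, |q i| ≤ x * σ * (K * σ ^ 2 * σ * √L) :=
          mul_le_mul_of_nonneg_left hq (by positivity)
      _ ≤ x * σ * (K * σ ^ 2 * σ * L ^ 2) := by
          apply mul_le_mul_of_nonneg_left _ (by positivity)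
          exact mul_le_mul_of_nonneg_left hsL (by positivity)
      _ = _ := by ring
  have e3 : 3 * σ * ∑ i ∈ T, |X2 i| ≤ 3 * K * L ^ 2 * σ ^ 4 := by
    calc 3 * σ * ∑ i ∈ T, |X2 i| ≤ 3 * σ * (K * σ ^ 2 * σ * √L) :=
          mul_le_mul_of_nonneg_left hX (by positivity)
      _ ≤ 3 * σ * (K * σ ^ 2 * σ * L ^ 2) := by
          apply mul_le_mul_of_nonneg_left _ (by positivity)
          exact mul_le_mul_of_nonneg_left hsL (by positivity)
      _ = _ := by ring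
  have e4 : (∑ i ∈ T, X2 i ^ 2 + ∑ i ∈ T, q i ^ 2) / 2 ≤ K * L ^ 2 * σ ^ 4 := by
    have : K * (σ ^ 2) ^ 2 * L ^ 2 = K * L ^ 2 * σ ^ 4 := by ring
    linarith
  have e5 : (3 + 5 * K) * L ^ 2 * σ ^ 4 * (1 + x) = (3 * L ^ 2 * σ ^ 4 * x + K * L ^ 2 * σ ^ 4 * x
      + 3 * K * L ^ 2 * σ ^ 4 + K * L ^ 2 * σ ^ 4) + (3 * L ^ 2 * σ ^ 4 + K * L ^ 2 * σ ^ 4
      + 4 * K * L ^ 2 * σ ^ 4 * x) := by ring
  have e6 : 0 ≤ 3 * L ^ 2 * σ ^ 4 + K * L ^ 2 * σ ^ 4 + 4 * K * L ^ 2 * σ ^ 4 * x := by positivity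
  linarith

theorem t2 (hb : S_Basic) (_hc : S_PRC) (hd : S_DYcnt) : S_T2 := by
  intro V0 C hV0 hC
  obtain ⟨K0, n0, hK0⟩ := hd V0 C hV0 hC
  set K : ℝ := |K0| with hKd
  have hK : 0 ≤ K := abs_nonneg _
  have hKK : K0 ≤ K := le_abs_self _
  refine ⟨21 * (2 * V0 ^ 2 * (3 + 5 * K) + V0 * K + V0 * (1 + K)), max n0 3, ?_⟩
  intro n hn S ρ t G hS hρ hP hA b γ g hγ hg hg0
  have hn3 : 3 ≤ n := (le_max_right _ _).trans hn
  obtain ⟨c1, c2, c3, c4, c5, c6, c7, -⟩ := hK0 n ((le_max_left _ _).trans hn) S ρ t G hS hρ hP hA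
  have hw : ww S ρ t G ∈ NN S ρ t G := mem_sdiff.2 ⟨hA.1.2, hA.1.1⟩
  have hV0' : 0 < V0 := by linarith
  -- basic quantities
  have hnpos : (0 : ℝ) < n := by
    have : 0 < n := by omega
    exact_mod_cast this
  set σ : ℝ := √(n : ℝ) with hσd
  have hσ2 : σ ^ 2 = n := Real.sq_sqrt hnpos.le
  have hσ1 : 1 ≤ σ := by
    rw [hσd, Real.one_le_sqrt]
    have : 1 ≤ n := by omega
    exact_mod_cast this
  have hσ0 : 0 < σ := by linarith
  set L : ℝ := Real.log n with hLd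
  have hL : 1 ≤ L := one_le_log hn3
  have hL2 : L ^ 2 ≤ 21 * (n : ℝ) ^ ((7 : ℝ) / 16) := log_sq_le hn3
  have hsL : √L ≤ L ^ 2 := by
    have h1 : √L ≤ L := by
      rw [Real.sqrt_le_left (by linarith)]
      nlinarith
    nlinarith
  set w := ww S ρ t G with hwd
  set X : ℝ := Xt S ρ t G w with hXd
  set R : ℝ := ((RR S ρ t G).card : ℝ) with hRd
  set r : ℝ := (rr S ρ t G : ℝ) with hrd
  have hrn : (n : ℝ) / V0 ≤ r := hA.2
  have hnV : 0 < (n : ℝ) / V0 := div_pos hnpos hV0'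
  have hr0 : 0 < r := hnV.trans_le hrn
  have hRr : R = r + (ss S ρ t G : ℝ) := by
    rw [hRd, hrd]
    exact_mod_cast (rr_add_ss S ρ t G).symm
  have hss0 : (0 : ℝ) ≤ (ss S ρ t G : ℝ) := Nat.cast_nonneg _
  have hss : (ss S ρ t G : ℝ) ≤ σ := by
    have h1 : ss S ρ t G ≤ Nat.sqrt n := by
      rw [← hS]
      exact card_le_card inter_subset_right
    have h2 : (ss S ρ t G : ℝ) ≤ (Nat.sqrt n : ℝ) := by exact_mod_cast h1
    exact h2.trans Real.nat_sqrt_le_real_sqrt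
  have hrR : r ≤ R := by linarith
  -- the weights
  set T := (NN S ρ t G).erase w with hTd
  have hgT : good2 S ρ t G ⊆ T := filter_subset _ _
  have hTR : T ⊆ (RR S ρ t G).erase w := erase_subset_erase _ (NN_sub S ρ t G)
  have hcardT : (T.card : ℝ) ≤ n := by
    have := card_le_univ T
    rw [Fintype.card_fin] at this
    exact_mod_cast this
  set Gs : ℝ := ∑ a ∈ (RR S ρ t G).erase w, g a with hGsd
  have hGs : |Gs| ≤ γ * uu b n :=
    (abs_sum_le_sum_abs _ _).trans (abs_sum_g_le S hS hγ hg hg0 _)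
  have huu : 0 ≤ uu b n := by
    unfold uu; split_ifs
    · exact Real.sqrt_nonneg _
    · exact hnpos.le
  -- the fractions
  have hq2 : ∀ w2 ∈ T, 2 * Dl S ρ t G w2 = (R - 2) - qq S ρ t G w2 := fun w2 hw2 => c3 w2 hw2
  have hmq : ∀ w2 ∈ good2 S ρ t G, R / 2 ≤ (R - 2) - qq S ρ t G w2 := by
    intro w2 hw2
    have h1 := c2 w2 hw2
    rw [← hq2 w2 (hgT hw2)]
    linarith
  set D : ℝ := (n : ℝ) ^ 2 / (2 * V0 ^ 2) with hDd
  have hD : 0 < D := by positivity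
  have hDm : ∀ w2 ∈ good2 S ρ t G, D ≤ ((R - 2) - qq S ρ t G w2) * r := by
    intro w2 hw2
    have h1 := hmq w2 hw2
    have h2 : D = ((n : ℝ) / V0 / 2) * ((n : ℝ) / V0) := by rw [hDd]; field_simp
    rw [h2]
    refine mul_le_mul (le_trans ?_ h1) hrn hnV.le ?_
    · linarith
    · linarith
  have hqh : ∀ w2 ∈ good2 S ρ t G, qh S ρ t G w2 =
      (X - Xt S ρ t G w2) / ((R - 2) - qq S ρ t G w2) := by
    intro w2 hw2
    unfold qh
    rw [hq2 w2 (hgT hw2)]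
  set x : ℝ := |X| / σ with hxd
  have hx0 : 0 ≤ x := div_nonneg (abs_nonneg _) hσ0.le
  -- the main estimate
  have hsum := sum_le T (fun w2 => Xt S ρ t G w2) (fun w2 => qq S ρ t G w2) (X := X) hK hσ1 hL
    (by rw [hσ2]; exact hcardT)
    (by
      rw [hσ2]
      refine c4.trans ?_
      gcongr)
    (by
      rw [hσ2]
      refine c5.trans ?_
      gcongr)
    (by
      rw [hσ2]
      refine (sum_le_sum_of_subset_of_nonneg (erase_subset _ _) fun _ _ _ => abs_nonneg _).trans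
        (c6.trans ?_)
      gcongr)
    (by
      rw [hσ2]
      refine (sum_le_sum_of_subset_of_nonneg (erase_subset _ _) fun _ _ _ => sq_nonneg _).trans
        (c7.trans ?_)
      gcongr)
  have hE1 : |∑ w2 ∈ good2 S ρ t G, qh S ρ t G w2 - (X - Xb S ρ t G)| ≤
      (2 * V0 ^ 2 * (3 + 5 * K) + V0 * K) * L ^ 2 * (1 + x) := by
    rw [← sum_X_sub S ρ t G hw hr0.ne']
    have h1 : ∑ w2 ∈ (NN S ρ t G).erase (ww S ρ t G),
        (Xt S ρ t G (ww S ρ t G) - Xt S ρ t G w2) / (rr S ρ t G : ℝ) =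
        ∑ w2 ∈ good2 S ρ t G, (X - Xt S ρ t G w2) / r +
          ∑ w2 ∈ bad2 S ρ t G, (X - Xt S ρ t G w2) / r := by
      unfold good2 bad2
      rw [sum_filter_add_sum_filter_not]
    rw [h1, ← sub_sub, ← sum_sub_distrib]
    have h2 : |∑ w2 ∈ good2 S ρ t G, (qh S ρ t G w2 - (X - Xt S ρ t G w2) / r)| ≤
        2 * V0 ^ 2 * (3 + 5 * K) * L ^ 2 * (1 + x) := by
      refine (abs_sum_le_sum_abs _ _).trans ?_
      have h3 : ∀ w2 ∈ good2 S ρ t G, |qh S ρ t G w2 - (X - Xt S ρ t G w2) / r| ≤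
          (|X| + |Xt S ρ t G w2|) * (3 * σ + |qq S ρ t G w2|) / D := by
        intro w2 hw2
        rw [hqh w2 hw2]
        refine term_le hr0 ?_ hD (hDm w2 hw2) ?_
        · have := hmq w2 hw2
          linarith
        · rw [abs_le]
          constructor <;> linarith
      refine (sum_le_sum h3).trans ?_
      rw [← sum_div, div_le_iff₀ hD]
      refine (sum_le_sum_of_subset_of_nonneg hgT fun _ _ _ => by positivity).trans
        (hsum.trans (le_of_eq ?_))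
      have h4 : (n : ℝ) ^ 2 = σ ^ 4 := by rw [← hσ2]; ring
      rw [hDd, h4, ← hxd]
      field_simp
    have h5 : |∑ w2 ∈ bad2 S ρ t G, (X - Xt S ρ t G w2) / r| ≤ V0 * K * L ^ 2 * (1 + x) := by
      refine (abs_sum_le_sum_abs _ _).trans ?_
      have h3 : ∀ w2 ∈ bad2 S ρ t G, |(X - Xt S ρ t G w2) / r| ≤ V0 * (1 + x) := by
        intro w2 _
        rw [abs_div, abs_of_pos hr0, div_le_iff₀ hr0]
        have h6 : |X - Xt S ρ t G w2| ≤ |X| + n :=
          (abs_sub _ _).trans (by linarith [abs_Xt_le S ρ t G w2])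
        have h7 : (n : ℝ) ≤ V0 * r := by
          rw [div_le_iff₀ hV0'] at hrn
          linarith
        have h8 : |X| ≤ x * n := by
          have : |X| = x * σ := by rw [hxd]; field_simp
          rw [this, ← hσ2]
          apply mul_le_mul_of_nonneg_left _ hx0
          nlinarith
        have h9 : (1 + x) * n ≤ (1 + x) * (V0 * r) :=
          mul_le_mul_of_nonneg_left h7 (by linarith)
        linarith [(by ring : (1 + x) * (V0 * r) = V0 * (1 + x) * r),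
          (by ring : (1 + x) * (n : ℝ) = n + x * n)]
      refine (sum_le_sum h3).trans ?_
      rw [sum_const, nsmul_eq_mul]
      have h6 : ((bad2 S ρ t G).card : ℝ) ≤ K * L ^ 2 := by
        refine c1.trans ?_
        have h7 : K0 * L ≤ K * L := mul_le_mul_of_nonneg_right hKK (by linarith)
        have h8 : K * L ≤ K * L ^ 2 := mul_le_mul_of_nonneg_left (by nlinarith) hK
        linarith
      have h7 : ((bad2 S ρ t G).card : ℝ) * (V0 * (1 + x)) ≤ K * L ^ 2 * (V0 * (1 + x)) :=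
        mul_le_mul_of_nonneg_right h6 (by positivity)
      linarith [(by ring : K * L ^ 2 * (V0 * (1 + x)) = V0 * K * L ^ 2 * (1 + x))]
    calc _ ≤ |∑ w2 ∈ good2 S ρ t G, (qh S ρ t G w2 - (X - Xt S ρ t G w2) / r)| +
          |∑ w2 ∈ bad2 S ρ t G, (X - Xt S ρ t G w2) / r| := abs_sub _ _
      _ ≤ 2 * V0 ^ 2 * (3 + 5 * K) * L ^ 2 * (1 + x) + V0 * K * L ^ 2 * (1 + x) :=
          add_le_add h2 h5
      _ = _ := by ring
  have hE2 : |∑ w2 ∈ good2 S ρ t G, qh S ρ t G w2 * g w2| ≤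
      2 * (γ * uu b n * (V0 * (1 + K)) * L ^ 2 * (1 + x)) := by
    cases b with
    | true =>
      have h1 : ∑ w2 ∈ good2 S ρ t G, qh S ρ t G w2 * g w2 = 0 := by
        refine sum_eq_zero fun w2 hw2 => ?_
        have h2 : w2 ∉ S := (mem_sdiff.1 (mem_of_mem_erase (hgT hw2))).2
        rw [hg0 w2 (by simpa using h2), mul_zero]
      rw [h1, abs_zero]
      positivity
    | false =>
      have hu : uu false n = n := by simp [uu]
      rw [hu]
      refine (abs_sum_le_sum_abs _ _).trans ?_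
      have h3 : ∀ w2 ∈ good2 S ρ t G, |qh S ρ t G w2 * g w2| ≤
          (|X| + |Xt S ρ t G w2|) * (2 * V0 / n * γ) := by
        intro w2 hw2
        rw [abs_mul, hqh w2 hw2, abs_div]
        have h1 := hmq w2 hw2
        have h4 : (n : ℝ) / V0 / 2 ≤ (R - 2) - qq S ρ t G w2 := by linarith
        have h5 : 0 < (n : ℝ) / V0 / 2 := by linarith
        have h6 : 0 < (R - 2) - qq S ρ t G w2 := h5.trans_le h4
        rw [abs_of_pos h6]
        have h7 : |X - Xt S ρ t G w2| / ((R - 2) - qq S ρ t G w2) ≤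
            (|X| + |Xt S ρ t G w2|) * (2 * V0 / n) := by
          calc |X - Xt S ρ t G w2| / ((R - 2) - qq S ρ t G w2)
              ≤ (|X| + |Xt S ρ t G w2|) / ((n : ℝ) / V0 / 2) :=
                div_le_div₀ (by positivity) (abs_sub _ _) h5 h4
            _ = _ := by field_simp
        calc _ ≤ (|X| + |Xt S ρ t G w2|) * (2 * V0 / n) * γ :=
              mul_le_mul h7 (hg w2) (abs_nonneg _) (by positivity)
          _ = _ := by ring
      refine (sum_le_sum h3).trans ?_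
      rw [← sum_mul]
      have h4 : ∑ w2 ∈ good2 S ρ t G, (|X| + |Xt S ρ t G w2|) ≤ (1 + K) * n ^ 2 * L ^ 2 * (1 + x) := by
        refine (sum_le_sum_of_subset_of_nonneg hgT fun _ _ _ => by positivity).trans ?_
        rw [sum_add_distrib, sum_const, nsmul_eq_mul]
        have h5 : ∑ w2 ∈ T, |Xt S ρ t G w2| ≤ K * n ^ 2 * L ^ 2 := by
          refine (sum_le_sum_of_subset_of_nonneg (erase_subset _ _)
            fun _ _ _ => abs_nonneg _).trans (c6.trans ?_)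
          have h6 : K0 * n * σ * √L ≤ K * n * σ * √L := by gcongr
          have h7 : K * n * σ * √L ≤ K * n * n * L ^ 2 := by
            have : σ ≤ n := by rw [← hσ2]; nlinarith
            gcongr
          linarith [(by ring : K * n * n * L ^ 2 = K * n ^ 2 * L ^ 2)]
        have h8 : |X| ≤ x * n := by
          have : |X| = x * σ := by rw [hxd]; field_simp
          rw [this, ← hσ2]
          apply mul_le_mul_of_nonneg_left _ hx0
          nlinarith
        have h9 : (T.card : ℝ) * |X| ≤ n * (x * n) :=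
          mul_le_mul hcardT h8 (abs_nonneg _) hnpos.le
        have h10 : (n : ℝ) * (x * n) ≤ n ^ 2 * L ^ 2 * x := by
          have : (n : ℝ) * (x * n) = n ^ 2 * x * 1 := by ring
          rw [this]
          have h11 : (n : ℝ) ^ 2 * x * 1 ≤ n ^ 2 * x * L ^ 2 := by
            apply mul_le_mul_of_nonneg_left _ (by positivity)
            nlinarith
          linarith [(by ring : (n : ℝ) ^ 2 * x * L ^ 2 = n ^ 2 * L ^ 2 * x)]
        have h12 : (1 + K) * (n : ℝ) ^ 2 * L ^ 2 * (1 + x) = n ^ 2 * L ^ 2 * x + K * n ^ 2 * L ^ 2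
            + (n ^ 2 * L ^ 2 + K * n ^ 2 * L ^ 2 * x) := by ring
        have h13 : 0 ≤ (n : ℝ) ^ 2 * L ^ 2 + K * n ^ 2 * L ^ 2 * x := by positivity
        linarith
      calc _ ≤ (1 + K) * n ^ 2 * L ^ 2 * (1 + x) * (2 * V0 / n * γ) :=
            mul_le_mul_of_nonneg_right h4 (by positivity)
        _ = _ := by field_simp
  -- assembly
  have hT2 : T2g S ρ t G g = Gs / 2 * ∑ w2 ∈ good2 S ρ t G, qh S ρ t G w2 -
      (∑ w2 ∈ good2 S ρ t G, qh S ρ t G w2 * g w2) / 2 := by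
    unfold T2g
    rw [mul_sum, sum_div (good2 S ρ t G), ← sum_sub_distrib]
    refine sum_congr rfl fun w2 hw2 => ?_
    have h1 : ∑ a ∈ ((RR S ρ t G).erase (ww S ρ t G)).erase w2, g a = Gs - g w2 := by
      rw [hGsd, ← add_sum_erase _ _ (hTR (hgT hw2))]; ring
    rw [h1]
    ring
  have hfin : T2g S ρ t G g - (X - Xb S ρ t G) / 2 * Gs =
      Gs / 2 * (∑ w2 ∈ good2 S ρ t G, qh S ρ t G w2 - (X - Xb S ρ t G)) -
      (∑ w2 ∈ good2 S ρ t G, qh S ρ t G w2 * g w2) / 2 := by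
    rw [hT2]; ring
  rw [hfin]
  have hbd : Bd S ρ t G b γ = γ * uu b n * (n : ℝ) ^ ((7 : ℝ) / 16) * (1 + x) := rfl
  rw [hbd]
  refine (abs_sub _ _).trans ?_
  rw [abs_mul, abs_div, abs_div, abs_two]
  set c : ℝ := 2 * V0 ^ 2 * (3 + 5 * K) + V0 * K with hc
  have hc0 : 0 ≤ c := by positivity
  have hγu : 0 ≤ γ * uu b n := mul_nonneg hγ huu
  have h1 : |Gs| / 2 * |∑ w2 ∈ good2 S ρ t G, qh S ρ t G w2 - (X - Xb S ρ t G)| ≤
      γ * uu b n * (c * L ^ 2 * (1 + x)) := by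
    refine mul_le_mul (by linarith) hE1 (abs_nonneg _) hγu
  have h2 : |∑ w2 ∈ good2 S ρ t G, qh S ρ t G w2 * g w2| / 2 ≤
      γ * uu b n * (V0 * (1 + K)) * L ^ 2 * (1 + x) := by linarith
  have h3 : γ * uu b n * (c * L ^ 2 * (1 + x)) + γ * uu b n * (V0 * (1 + K)) * L ^ 2 * (1 + x) =
      γ * uu b n * (c + V0 * (1 + K)) * (1 + x) * L ^ 2 := by ring
  have h4 : γ * uu b n * (c + V0 * (1 + K)) * (1 + x) * L ^ 2 ≤
      γ * uu b n * (c + V0 * (1 + K)) * (1 + x) * (21 * (n : ℝ) ^ ((7 : ℝ) / 16)) :=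
    mul_le_mul_of_nonneg_left hL2 (by positivity)
  have h5 : γ * uu b n * (c + V0 * (1 + K)) * (1 + x) * (21 * (n : ℝ) ^ ((7 : ℝ) / 16)) =
      21 * (c + V0 * (1 + K)) * (γ * uu b n * (n : ℝ) ^ ((7 : ℝ) / 16) * (1 + x)) := by ring
  linarith

end

end Pool.Agent.W397.PK
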